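import Pool.Agent.X156.SR.Proj

/-!
# Simplicial refinements that do not factor through the projection simplex

A central section `C` of the `k`-dimensional cross-polytope has a simplicial refinement by a simplex
`T` with `2 k` vertices (Hahn-Banach), and for suitable sections `C` has `m > 2 k` extreme points.
There is no partial onto affine map from `T` to a simplex `T₀` with `m` vertices, hence this
refinement does not factor through the projection `p : T₀ → C`.
-/

set_option autoImplicit false

namespace Pool.Agent.Results.MP_b12348_gt.NoFactorisation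

open Pool.Agent.X156.SR

/-- `p` is the parallel projection of the simplex `T₀` with the vertices `e 1, …, e m` onto the
polytope `C` with the extreme points `c 1, …, c m`: the points `c i` are the extreme points of `C`,
each listed once, the points `e i` are affinely independent, and `p` is the (total) affine map from
`T₀ = conv {e 1, …, e m}` to `C` with `p (e i) = c i`. -/
structure IsProjection {E G : Type*} [AddCommGroup E] [Module ℝ E] [AddCommGroup G] [Module ℝ G]
    (C : Set E) {m : ℕ} (c : Fin m → E) (e : Fin m → G) (p : G →. E) : Prop where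
  inj : Function.Injective c
  range : Set.range c = C.extremePoints ℝ
  indep : AffineIndependent ℝ e
  total : p.Dom = convexHull ℝ (Set.range e)
  affine : IsPartialOntoAffine (convexHull ℝ (Set.range e)) C p
  vertex : ∀ i, c i ∈ p (e i)

/-- The simplicial refinement `(T, Ω T, f, g)` of `(C, Ω C)` factors through the projection
`p : T₀ → C`, where `T₀` is the convex hull of the points `e i`. -/
def Factors {E F G : Type*} [AddCommGroup E] [Module ℝ E] [AddCommGroup F] [Module ℝ F]
    [AddCommGroup G] [Module ℝ G] (C : Set E) (T : Set F) (f : F →. E)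
    (g : (T → ℝ) →. (C → ℝ)) (T₀ : Set G) (p : G →. E) : Prop :=
  ∃ (g₀ : (T₀ → ℝ) →. (C → ℝ)) (f' : F →. G) (g' : (T → ℝ) →. (T₀ → ℝ)),
    IsRefinement C T₀ p g₀ ∧ IsRefinement T₀ T f' g' ∧ f = p.comp f' ∧ g = g₀.comp g'

/-- **Negative answer to Q1.** For all `r ≥ 1` and `k ≥ r + 3` there is a non-simplicial statistical
model `(C, Ω C)` with `C ⊆ ℝ^k`, with exactly `m = 2 (k choose (r + 1))` extreme points, and with a
simplicial refinement `(T, Ω T, f, g)` with exactly `2 k < m` vertices, which does not factor
through the projection `p : T₀ → C` of an `(m-1)`-simplex `T₀` (whatever the choice of `T₀`, of the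
order of the extreme points, and of the maps). Such projections exist. -/
theorem result (k r : ℕ) (hr : 1 ≤ r) (hk : r + 3 ≤ k) :
    ∃ C : Set (Fin k → ℝ), IsPolytope C ∧ ¬ IsSimplex C ∧
      (C.extremePoints ℝ).ncard = 2 * k.choose (r + 1) ∧
      (∃ (c : Fin (2 * k.choose (r + 1)) → (Fin k → ℝ))
        (e : Fin (2 * k.choose (r + 1)) → (Fin (2 * k.choose (r + 1)) → ℝ))
        (p : (Fin (2 * k.choose (r + 1)) → ℝ) →. (Fin k → ℝ)), IsProjection C c e p) ∧
      ∃ (T : Set (Fin k × Bool → ℝ)) (f : (Fin k × Bool → ℝ) →. (Fin k → ℝ))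
        (g : (T → ℝ) →. (C → ℝ)), IsRefinement C T f g ∧ (T.extremePoints ℝ).ncard = 2 * k ∧
        2 * k < 2 * k.choose (r + 1) ∧
        ∀ (G : Type) [AddCommGroup G] [Module ℝ G] (m : ℕ) (c : Fin m → (Fin k → ℝ))
          (e : Fin m → G) (p : G →. (Fin k → ℝ)), IsProjection C c e p →
          ¬ Factors C T f g (convexHull ℝ (Set.range e)) p := by
  have hcard := mom_ncard (k := k) (r := r) (by omega)
  have hlt : k < k.choose (r + 1) := lt_choose k (r + 1) (by omega) (by omega)
  have : Nonempty (Fin k) := ⟨⟨0, by omega⟩⟩
  refine ⟨body (mom k r), body_isPolytope _, body_not_isSimplex (by omega), hcard, ?_,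
    _, _, _, isRefinement_body (mom k r), ?_, by omega, ?_⟩
  · classical
    obtain ⟨c, hc1, hc2⟩ := exists_enum' (body_isPolytope (mom k r)) hcard
    have hli : LinearIndependent ℝ (fun i : Fin (2 * k.choose (r + 1)) =>
        (Pi.single i 1 : Fin (2 * k.choose (r + 1)) → ℝ)) := by
      have := (Pi.basisFun ℝ (Fin (2 * k.choose (r + 1)))).linearIndependent
      convert this using 1
      funext i
      simp
    refine ⟨c, fun i => Pi.single i 1, proj c, hc1, hc2, hli.affineIndependent, ?_, ?_, ?_⟩
    · rw [convexHull_rangle_single_eq_stdSimplex]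
      rfl
    · rw [convexHull_rangle_single_eq_stdSimplex]
      exact proj_partial (body_isPolytope _) hc2
    · intro i
      rw [mem_proj]
      refine ⟨single_mem_stdSimplex ℝ i, ?_⟩
      rw [Finset.sum_eq_single i]
      · simp
      · intro j _ hj
        simp [Pi.single_eq_of_ne hj]
      · intro h
        exact absurd (Finset.mem_univ i) h
  · rw [extremePoints_stdSimplex, Fintype.card_prod, Fintype.card_fin, Fintype.card_bool]
    ring
  · intro G _ _ m c e p hp hfac
    classical
    obtain ⟨g₀, f', g', h1, h2, h3, h4⟩ := hfac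
    let ε : Fin (2 * k) ≃ Fin k × Bool := Fintype.equivOfCardEq (by
      rw [Fintype.card_prod, Fintype.card_fin, Fintype.card_fin, Fintype.card_bool]
      ring)
    have h5 : stdSimplex ℝ (Fin k × Bool) =
        convexHull ℝ (Set.range fun j : Fin (2 * k) => (Pi.single (ε j) 1 : Fin k × Bool → ℝ)) := by
      rw [← convexHull_rangle_single_eq_stdSimplex]
      congr 1
      ext x
      constructor
      · rintro ⟨i, rfl⟩
        exact ⟨ε.symm i, by simp⟩
      · rintro ⟨j, rfl⟩
        exact ⟨ε j, rfl⟩
    have h6 := h2.f_map
    rw [h5] at h6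
    have h7 := card_le_of_onto hp.indep h6
    have h8 : m = 2 * k.choose (r + 1) := by
      rw [← hcard, ← hp.range, ← Set.image_univ, Set.ncard_image_of_injective _ hp.inj,
        Set.ncard_univ, Nat.card_eq_fintype_card, Fintype.card_fin]
    omega

end Pool.Agent.Results.MP_b12348_gt.NoFactorisation
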